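import Pool.Agent.V5helper79.BX.Sys

/-!
# Families of convex flats which are deterministic in one direction
-/

set_option autoImplicit false

namespace Pool.Agent.V5helper79.BX

open Function Set
open Pool.Agent.N47.SQ (IsMedian adj_iff dcomm z2_of)

variable {n : ℕ} {V : Type*} {G : Type*} [Group G] [MulAction G V] {Γ : SimpleGraph V}

/-- the hypothesis of determinism in the direction `uv i b` -/
def DetUp (L : Set ((Fin n → ℤ) → V)) (R : ℕ) (i : Fin n) (b : Bool) : Prop :=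
  ∀ h ∈ L, ∀ k ∈ L, (∀ z ∈ Win n R, h z = k z) → ∀ t : ℕ, h ((t : ℤ) • uv i b) = k ((t : ℤ) • uv i b)

theorem nbr {h k : (Fin n → ℤ) → V} {R : ℕ} (hR : 1 ≤ R) (hag : ∀ z ∈ Win n R, h z = k z) :
    ∀ (l : Fin n) (t : ℤ), ((0 : Fin n → ℤ) l - t).natAbs = 1 → h (update 0 l t) = k (update 0 l t) := by
  intro l t ht
  refine hag _ fun m => ?_
  by_cases hm : m = l
  · subst hm
    rw [update_self]
    simp only [Pi.zero_apply] at ht
    omega
  · rw [update_of_ne hm]
    simp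

theorem zero_mem (R : ℕ) : (0 : Fin n → ℤ) ∈ Win n R := fun k => by simp

theorem upd_mem {R : ℕ} (l : Fin n) {t : ℤ} (ht : t.natAbs ≤ R) : update (0 : Fin n → ℤ) l t ∈ Win n R := by
  intro m
  by_cases hm : m = l
  · subst hm
    rw [update_self]
    exact ht
  · rw [update_of_ne hm]
    simp

theorem smul_uv (i : Fin n) (b : Bool) (a : ℤ) :
    a • uv i b = update (0 : Fin n → ℤ) i (a * (if b then 1 else -1)) := by
  have := add_uv 0 i b a
  simpa using this

theorem spread0 (hA : Act G Γ) {L : Set ((Fin n → ℤ) → V)} (hL : Sys G Γ L) {R : ℕ} (hR : 1 ≤ R)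
    {i : Fin n} {b : Bool} (hdet : DetUp L R i b) {h k : (Fin n → ℤ) → V} (hh : h ∈ L) (hk : k ∈ L)
    (hag : ∀ z ∈ Win n R, h z = k z) (t : ℕ) :
    ∀ z ∈ Win n R, h (z + (t : ℤ) • uv i b) = k (z + (t : ℤ) • uv i b) := by
  intro z hz
  rw [box_iff hA.med (hL.flat h hh) (hL.flat k hk) (hag _ (zero_mem R)) (nbr hR hag)]
  intro l
  by_cases hl : l = i
  · subst hl
    have e : (z + (t : ℤ) • uv l b) l = z l + t * (if b then 1 else -1) := by
      rw [Pi.add_apply, Pi.smul_apply, uv_self, smul_eq_mul]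
    rw [e]
    by_cases hw : (z l + t * (if b then 1 else -1)).natAbs ≤ R
    · exact hag _ (upd_mem l hw)
    · obtain ⟨t', ht'⟩ : ∃ t' : ℕ, z l + t * (if b then 1 else -1) =
          (t' : ℤ) * (if b then 1 else -1) := by
        have hzl := hz l
        cases b
        · refine ⟨(-(z l + t * (-1))).toNat, ?_⟩
          simp only [Bool.false_eq_true, if_false] at hw ⊢
          omega
        · refine ⟨(z l + t * 1).toNat, ?_⟩
          simp only [if_true] at hw ⊢
          omega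
      rw [ht', ← smul_uv]
      exact hdet h hh k hk hag t'
  · have e : (z + (t : ℤ) • uv i b) l = z l := by
      rw [Pi.add_apply, Pi.smul_apply, uv_ne hl]; simp
    rw [e]
    exact hag _ (upd_mem l (hz l))

theorem Sys.repeat (hA : Act G Γ) {L : Set ((Fin n → ℤ) → V)} (hL : Sys G Γ L)
    {f : (Fin n → ℤ) → V} (hf : f ∈ L) (p : ℕ → Fin n → ℤ) (S : ℕ) :
    ∃ i j : ℕ, i < j ∧ ∃ g : G, ∀ z ∈ Win n S, g • f (z + p i) = f (z + p j) := by
  obtain ⟨h', _, hlim⟩ := hL.limit hA (fun m z => f (z + p m))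
    (fun m => by simpa using hL.mv f hf 1 (p m))
  obtain ⟨i, _, gi, hi⟩ := hlim S 0
  obtain ⟨j, hj0, gj, hj⟩ := hlim S (i + 1)
  refine ⟨i, j, by omega, gj⁻¹ * gi, fun z hz => ?_⟩
  rw [mul_smul, ← hi z hz, hj z hz, inv_smul_smul]

theorem pow_tr {f : (Fin n → ℤ) → V} {g : G} {x s : Fin n → ℤ} {Y : ℤ} {τ : ℕ}
    (h : ∀ t : ℤ, Y ≤ t → g • f (x + t • s) = f (x + (t + τ) • s)) (m : ℕ) :
    ∀ t : ℤ, Y ≤ t → g ^ m • f (x + t • s) = f (x + (t + (m * τ : ℕ)) • s) := by
  induction m with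
  | zero => intro t _; simp
  | succ m ih =>
    intro t ht
    rw [pow_succ, mul_smul, h t ht, ih _ (by omega)]
    congr 3
    push_cast
    ring

theorem pow_eq (hA : Act G Γ) {f : (Fin n → ℤ) → V} {a b : G} {x s : Fin n → ℤ} {Y : ℤ} {T : ℕ}
    (h1 : ∀ t : ℤ, Y ≤ t → a • f (x + t • s) = f (x + (t + T) • s))
    (h2 : ∀ t : ℤ, Y ≤ t → b • f (x + t • s) = f (x + (t + T) • s)) :
    ∃ k : ℕ, 0 < k ∧ a ^ k = b ^ k := by
  have hmem : ∀ m : ℕ, (b ^ m)⁻¹ * a ^ m ∈ {g : G | g • f (x + Y • s) = f (x + Y • s)} := by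
    intro m
    simp only [Set.mem_ofPred_eq]
    rw [mul_smul, inv_smul_eq_iff, pow_tr h1 m Y le_rfl, pow_tr h2 m Y le_rfl]
  obtain ⟨m, -, m', -, hne, heq⟩ := Set.infinite_univ.exists_ne_map_eq_of_mapsTo
    (f := fun m : ℕ => (b ^ m)⁻¹ * a ^ m) (fun m _ => hmem m) (hA.stab _)
  wlog hlt : m < m' generalizing m m'
  · exact this m' m hne.symm heq.symm (by omega)
  obtain ⟨d, rfl⟩ := Nat.exists_eq_add_of_lt hlt
  refine ⟨d + 1, by omega, ?_⟩
  have e : (b ^ m)⁻¹ * a ^ m = (b ^ m)⁻¹ * ((b ^ (d + 1))⁻¹ * a ^ (d + 1)) * a ^ m := by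
    have h := heq
    rw [show m + d + 1 = (d + 1) + m by ring, pow_add b, pow_add a, mul_inv_rev] at h
    rw [h]
    simp only [mul_assoc]
  have e2 : (b ^ (d + 1))⁻¹ * a ^ (d + 1) = 1 := by
    have h := mul_right_cancel e
    exact (mul_eq_left.1 h.symm)
  exact (inv_mul_eq_one.1 e2).symm

theorem column (hA : Act G Γ) {L : Set ((Fin n → ℤ) → V)} (hL : Sys G Γ L) {R : ℕ} (hR : 1 ≤ R)
    {i : Fin n} {b : Bool} (hdet : DetUp L R i b) {f : (Fin n → ℤ) → V} (hf : f ∈ L)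
    (c : Fin n → ℤ) : ∃ (g : G) (τ : ℕ) (Y : ℤ), 0 < τ ∧ ∀ z ∈ Win n R, ∀ t : ℤ, Y ≤ t →
      g • f (z + c + t • uv i b) = f (z + c + (t + τ) • uv i b) := by
  obtain ⟨p, q, hpq, g, hg⟩ := hL.repeat hA hf (fun m => c + (m : ℤ) • uv i b) R
  refine ⟨g, q - p, p, by omega, fun z hz t ht => ?_⟩
  have h1 := spread0 hA hL hR hdet (hL.mv f hf g (c + (p : ℤ) • uv i b))
    (hL.mv f hf 1 (c + (q : ℤ) • uv i b)) (fun z hz => by rw [one_smul]; exact hg z hz)
    (t - p).toNat z hz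
  simp only [one_smul] at h1
  have e1 : z + (((t - p).toNat : ℕ) : ℤ) • uv i b + (c + (p : ℤ) • uv i b) =
      z + c + t • uv i b := by
    rw [show (((t - p).toNat : ℕ) : ℤ) = t - p by omega]
    module
  have e2 : z + (((t - p).toNat : ℕ) : ℤ) • uv i b + (c + (q : ℤ) • uv i b) =
      z + c + (t + ((q - p : ℕ) : ℤ)) • uv i b := by
    rw [show (((t - p).toNat : ℕ) : ℤ) = t - p by omega,
      show ((q - p : ℕ) : ℤ) = q - p by omega]
    module
  rw [e1, e2] at h1
  exact h1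

theorem uv_mem {R : ℕ} (hR : 1 ≤ R) (j : Fin n) (c : Bool) : uv j c ∈ Win n R := by
  have := smul_uv j c 1
  rw [one_smul] at this
  rw [this]
  refine upd_mem j ?_
  cases c <;> simp <;> omega

theorem lines (hA : Act G Γ) {L : Set ((Fin n → ℤ) → V)} (hL : Sys G Γ L) {R : ℕ} (hR : 1 ≤ R)
    {i : Fin n} {b : Bool} (hdet : DetUp L R i b) {f : (Fin n → ℤ) → V} (hf : f ∈ L)
    (j : Fin n) (c : Fin n → ℤ) (m : ℕ) :
    ∃ (g : G) (τ : ℕ) (Y : ℤ), 0 < τ ∧ ∀ l : ℕ, l ≤ m → ∀ t : ℤ, Y ≤ t →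
      g • f (c + (l : ℤ) • uv j true + t • uv i b) =
        f (c + (l : ℤ) • uv j true + (t + τ) • uv i b) := by
  induction m with
  | zero =>
    obtain ⟨g, τ, Y, h1, h2⟩ := column hA hL hR hdet hf c
    refine ⟨g, τ, Y, h1, fun l hl t ht => ?_⟩
    have := h2 0 (zero_mem R) t ht
    rw [zero_add] at this
    rw [show l = 0 by omega]
    simpa using this
  | succ m ih =>
    obtain ⟨g, τ, Y, hτ, hg⟩ := ih
    obtain ⟨g', τ', Y', hτ', hg'⟩ := column hA hL hR hdet hf (c + (m : ℤ) • uv j true)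
    have a1 : ∀ l : ℕ, l ≤ m → ∀ t : ℤ, max Y Y' ≤ t →
        g ^ τ' • f (c + (l : ℤ) • uv j true + t • uv i b) =
          f (c + (l : ℤ) • uv j true + (t + (τ' * τ : ℕ)) • uv i b) := fun l hl t ht =>
      pow_tr (hg l hl) τ' t (by omega)
    have a2 : ∀ z ∈ Win n R, ∀ t : ℤ, max Y Y' ≤ t →
        g' ^ τ • f (z + (c + (m : ℤ) • uv j true) + t • uv i b) =
          f (z + (c + (m : ℤ) • uv j true) + (t + (τ' * τ : ℕ)) • uv i b) := fun z hz t ht => by
      rw [mul_comm τ' τ]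
      exact pow_tr (hg' z hz) τ t (by omega)
    have a3 := a2 0 (zero_mem R)
    rw [zero_add] at a3
    obtain ⟨k, hk, hkk⟩ := pow_eq hA (a1 m le_rfl) a3
    refine ⟨(g ^ τ') ^ k, k * (τ' * τ), max Y Y', by positivity, fun l hl t ht => ?_⟩
    rcases Nat.lt_or_ge m l with h4 | h4
    · have h5 : l = m + 1 := by omega
      rw [hkk, h5]
      have h6 := pow_tr (a2 (uv j true) (uv_mem hR j true)) k t ht
      have e1 : c + ((m + 1 : ℕ) : ℤ) • uv j true = uv j true + (c + (m : ℤ) • uv j true) := by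
        push_cast
        module
      rw [e1]
      exact h6
    · exact pow_tr (a1 l h4) k t ht

/-- a family of flats which is deterministic in one direction gives `ℤ²` -/
theorem det_up (hA : Act G Γ) {L : Set ((Fin n → ℤ) → V)} (hL : Sys G Γ L) {R : ℕ} (hR : 1 ≤ R)
    {i j : Fin n} (hij : i ≠ j) {b : Bool} (hdet : DetUp L R i b) {f : (Fin n → ℤ) → V}
    (hf : f ∈ L) : ∃ φ : Multiplicative (ℤ × ℤ) →* G, Injective φ := by
  have hff := hL.flat f hf
  obtain ⟨p, q, hpq, u, hu⟩ := hL.repeat hA hf (fun m => (m : ℤ) • uv j true) R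
  obtain ⟨l, rfl⟩ := Nat.exists_eq_add_of_lt hpq
  -- `u` shifts the column at `p` to the column at `p + l + 1`
  have hu' : ∀ z ∈ Win n R, ∀ t : ℕ, u • f (z + (t : ℤ) • uv i b + (p : ℤ) • uv j true) =
      f (z + (t : ℤ) • uv i b + ((p : ℤ) + (l + 1)) • uv j true) := by
    intro z hz t
    have h1 := spread0 hA hL hR hdet (hL.mv f hf u ((p : ℤ) • uv j true))
      (hL.mv f hf 1 (((p + l + 1 : ℕ) : ℤ) • uv j true))
      (fun z hz => by rw [one_smul]; exact hu z hz) t z hz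
    simp only [one_smul] at h1
    rw [h1]
    congr 3
  obtain ⟨g, τ, Y0, hτ, hg⟩ := lines hA hL hR hdet hf j ((p : ℤ) • uv j true) (l + 2)
  set Y : ℤ := max Y0 0 with hY
  -- the lines
  set X : ℤ → ℤ → Fin n → ℤ := fun a t => (p : ℤ) • uv j true + a • uv j true + t • uv i b with hX
  have hgX : ∀ a : ℕ, a ≤ l + 2 → ∀ t : ℤ, Y ≤ t → g • f (X a t) = f (X a (t + τ)) :=
    fun a ha t ht => hg a ha t (by omega)
  have huX0 : ∀ t : ℤ, Y ≤ t → u • f (X 0 t) = f (X (l + 1) t) := by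
    intro t ht
    have h1 := hu' 0 (zero_mem R) t.toNat
    have e1 : (0 : Fin n → ℤ) + ((t.toNat : ℕ) : ℤ) • uv i b + (p : ℤ) • uv j true = X 0 t := by
      rw [show ((t.toNat : ℕ) : ℤ) = t by omega, hX]
      simp only []
      module
    have e2 : (0 : Fin n → ℤ) + ((t.toNat : ℕ) : ℤ) • uv i b + ((p : ℤ) + (l + 1)) • uv j true =
        X (l + 1) t := by
      rw [show ((t.toNat : ℕ) : ℤ) = t by omega, hX]
      simp only []
      module
    rw [e1, e2] at h1
    exact h1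
  have huX1 : ∀ t : ℤ, Y ≤ t → u • f (X 1 t) = f (X (l + 2) t) := by
    intro t ht
    have h1 := hu' (uv j true) (uv_mem hR j true) t.toNat
    have e1 : uv j true + ((t.toNat : ℕ) : ℤ) • uv i b + (p : ℤ) • uv j true = X 1 t := by
      rw [show ((t.toNat : ℕ) : ℤ) = t by omega, hX]
      simp only []
      module
    have e2 : uv j true + ((t.toNat : ℕ) : ℤ) • uv i b + ((p : ℤ) + (l + 1)) • uv j true =
        X (l + 2) t := by
      rw [show ((t.toNat : ℕ) : ℤ) = t by omega, hX]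
      simp only []
      module
    rw [e1, e2] at h1
    exact h1
  have hX' : ∀ a t : ℤ, (p : ℤ) • uv j true + a • uv j true + t • uv i b = X a t := fun _ _ => rfl
  -- the conjugate of `g`
  obtain ⟨k, hk, hkk⟩ := pow_eq hA (f := f) (a := u * g * u⁻¹) (b := g)
    (x := (p : ℤ) • uv j true + ((l : ℤ) + 1) • uv j true) (s := uv i b) (Y := Y) (T := τ) (by
      intro t ht
      rw [hX', hX', ← huX0 t ht, ← huX0 (t + τ) (by omega), mul_smul, mul_smul, inv_smul_smul]
      have := hgX 0 (by omega) t ht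
      rw [Nat.cast_zero] at this
      rw [this])
    (fun t ht => by
      rw [hX', hX']
      have := hgX (l + 1) (by omega) t ht
      push_cast at this
      exact this)
  have hcomm : Commute u (g ^ k) := by
    rw [conj_pow] at hkk
    exact mul_inv_eq_iff_eq_mul.1 hkk
  have hgk : ∀ a : ℕ, a ≤ l + 2 → ∀ t : ℤ, Y ≤ t →
      g ^ k • f (X a t) = f (X a (t + (k * τ : ℕ))) := fun a ha t ht =>
    pow_tr (x := (p : ℤ) • uv j true + (a : ℤ) • uv j true) (s := uv i b) (hgX a ha) k t ht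
  have e0 : X 0 Y + uv j true = X 1 Y := by rw [hX]; simp only []; module
  have eX : ∀ a : ℤ, X 0 Y + a • uv j true = X a Y := by intro a; rw [hX]; simp only []; module
  have dX : ∀ a c : ℤ, Γ.dist (f (X a Y)) (f (X c Y)) = (a - c).natAbs := by
    intro a c
    rw [hff.flat, ← eX a, ← eX c, ds_line]
  refine z2_of hcomm {v | Γ.dist v (f (X 1 Y)) < Γ.dist v (f (X 0 Y))} ?_
    (p := f (X (l + 1) Y)) ?_ ?_ ?_ ?_
  · intro v hv
    simp only [Set.mem_ofPred_eq] at hv ⊢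
    rw [← e0]
    refine nested hA.med hff _ (X 0 Y) j (l + 1) ?_
    rw [eX, eX]
    push_cast
    rw [show (l : ℤ) + 1 + 1 = l + 2 by ring, ← huX0 Y le_rfl, ← huX1 Y le_rfl, hA.dist, hA.dist]
    exact hv
  · simp only [Set.mem_ofPred_eq]
    rw [dX, dX]
    omega
  · rw [← huX0 Y le_rfl, inv_smul_smul]
    simp only [Set.mem_ofPred_eq]
    rw [dX, dX]
    omega
  · intro v
    simp only [Set.mem_ofPred_eq]
    have e1 := hgk 0 (by omega) Y le_rfl
    have e2 := hgk 1 (by omega) Y le_rfl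
    rw [Nat.cast_zero] at e1
    rw [Nat.cast_one] at e2
    have e3 : X 0 (Y + (k * τ : ℕ)) = X 0 Y + ((k * τ : ℕ) : ℤ) • uv i b := by
      rw [hX]; simp only []; module
    have e4 : X 1 (Y + (k * τ : ℕ)) = X 0 Y + ((k * τ : ℕ) : ℤ) • uv i b + uv j true := by
      rw [hX]; simp only []; module
    have h3 : Γ.dist v (f (X 1 Y)) < Γ.dist v (f (X 0 Y)) ↔
        Γ.dist (g ^ k • v) (f (X 1 (Y + (k * τ : ℕ)))) <
          Γ.dist (g ^ k • v) (f (X 0 (Y + (k * τ : ℕ)))) := by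
      rw [← e1, ← e2, hA.dist, hA.dist]
    rw [h3, e3, e4, ← e0]
    exact (par hA.med hff hij b true (k * τ) (X 0 Y)).symm
  · intro m hm h1
    have h2 := pow_tr (f := f) (g := g ^ k) (x := (p : ℤ) • uv j true + (0 : ℤ) • uv j true)
      (s := uv i b) (Y := Y) (τ := k * τ)
      (fun t ht => by
        have := hgk 0 (by omega) t ht
        rw [Nat.cast_zero] at this
        exact this) m Y le_rfl
    rw [h1, one_smul] at h2
    have h3 := hff.inj h2
    have h4 := congrFun h3 i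
    simp only [Pi.add_apply, Pi.smul_apply, uv_self, smul_eq_mul] at h4
    have h5 : 0 < m * (k * τ) := by positivity
    have h6 : ((m * (k * τ) : ℕ) : ℤ) * (if b then 1 else -1) = 0 := by linarith
    cases b
    · simp only [Bool.false_eq_true, if_false] at h6; omega
    · simp only [if_true] at h6; omega

end Pool.Agent.V5helper79.BX
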