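import Pool.Agent.V5helper79.BX.Pairs

/-!
# Flats of the maximal dimension are convex
-/

set_option autoImplicit false

namespace Pool.Agent.V5helper79.BX

open Function Set
open Pool.Agent.N47.SQ (IsMedian adj_iff dcomm)

variable {n : ℕ} {V : Type*} {Γ : SimpleGraph V}

/-- no `n + 1` edges at a vertex pairwise span squares -/
def DimLE (n : ℕ) (Γ : SimpleGraph V) : Prop :=
  ¬ ∃ (x : V) (p : Fin (n + 1) → V), Injective p ∧ (∀ i, Γ.Adj x (p i)) ∧
    ∀ i j, i ≠ j → ∃ y, y ≠ x ∧ Γ.Adj (p i) y ∧ Γ.Adj (p j) y

theorem nbr_mem (hΓ : IsMedian Γ) (hD : DimLE n Γ) {f : (Fin n → ℤ) → V}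
    (hf : ∀ z w, Γ.dist (f z) (f w) = ds z w) {u w : Fin n → ℤ} {y : V} (hy : Γ.Adj (f u) y)
    (hd : Γ.dist (f w) (f u) = Γ.dist (f w) y + 1) : ∃ u', f u' = y := by
  by_contra hc
  push Not at hc
  have adj : ∀ {z w : Fin n → ℤ}, ds z w = 1 → Γ.Adj (f z) (f w) := fun {z w} h => by
    rw [← adj_iff, hf, h]
  have inj : ∀ {z w : Fin n → ℤ}, f z = f w → z = w := fun {z w} h => by
    apply eq_of_ds
    rw [← hf, h, SimpleGraph.dist_self]
  have key : ∀ l : Fin n, ∃ b : Bool, ∃ s, s ≠ f u ∧ Γ.Adj y s ∧ Γ.Adj (f (u + uv l b)) s := by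
    intro l
    obtain ⟨b, w', h1, h2⟩ : ∃ (b : Bool) (w' : Fin n → ℤ),
        Γ.dist (f w') (f u) = Γ.dist (f w') (f (u + uv l b)) + 1 ∧
        Γ.dist (f w') (f u) = Γ.dist (f w') y + 1 := by
      by_cases hl : u l = w l
      · refine ⟨true, w + uv l true, ?_, ?_⟩
        · rw [hf, hf, ds_add, ds_comm (w + uv l true)]
          have e1 := ds_upd w u l (w l + 1)
          have e2 := add_uv w l true 1
          rw [one_smul] at e2
          simp only [if_true, mul_one] at e2
          rw [e2, ds_comm u, ds_comm w]
          rw [ds_comm u w]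
          omega
        · have h3 := hΓ.ne_dist hy (f (w + uv l true))
          have h4 : Γ.dist (f (w + uv l true)) (f u) = Γ.dist (f w) (f u) + 1 := by
            rw [hf, hf]
            have e1 := ds_upd w u l (w l + 1)
            have e2 := add_uv w l true 1
            rw [one_smul] at e2
            simp only [if_true, mul_one] at e2
            rw [e2]
            omega
          have h5 := hΓ.tri (f (w + uv l true)) (f w) y
          have h6 : Γ.dist (f (w + uv l true)) (f w) = 1 := by
            rw [hf, ds_comm]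
            exact ds_uv w l true
          omega
      · refine ⟨decide (u l < w l), w, ?_, hd⟩
        have e1 := ds_upd u w l (u l + 1 * (if decide (u l < w l) then 1 else -1))
        have e2 := add_uv u l (decide (u l < w l)) 1
        rw [one_smul] at e2
        rw [hf, hf, ds_comm w, ds_comm w, e2]
        by_cases h3 : u l < w l
        · simp only [h3, decide_true, if_true] at e1 ⊢
          omega
        · simp only [h3, decide_false, Bool.false_eq_true, if_false] at e1 ⊢
          omega
    obtain ⟨s, s1, s2, s3⟩ := hΓ.quad (v := f w') (adj (ds_uv u l b)) hy (hc _) h1 h2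
    refine ⟨b, s, ?_, s2, s1⟩
    rintro rfl
    omega
  choose b s hs1 hs2 hs3 using key
  refine hD ⟨f u, Fin.cons y fun l => f (u + uv l (b l)), ?_, ?_, ?_⟩
  · rw [Fin.cons_injective_iff]
    refine ⟨?_, ?_⟩
    · rintro ⟨l, hl⟩
      exact hc _ hl
    · intro l l' h
      by_contra hne
      have := congrFun (inj h) l
      simp only [Pi.add_apply, uv_ne hne, uv_self] at this
      split_ifs at this <;> omega
  · intro i
    refine Fin.cases ?_ (fun l => ?_) i
    · simpa using hy
    · simpa using adj (ds_uv u l (b l))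
  · intro i j
    refine Fin.cases ?_ (fun l => ?_) i
    · refine Fin.cases (fun h => absurd rfl h) (fun l _ => ?_) j
      exact ⟨s l, hs1 l, by simpa using hs2 l, by simpa using hs3 l⟩
    · refine Fin.cases (fun _ => ?_) (fun l' hll => ?_) j
      · exact ⟨s l, hs1 l, by simpa using hs3 l, by simpa using hs2 l⟩
      · have hne : l ≠ l' := fun h => hll (by rw [h])
        refine ⟨f (u + uv l (b l) + uv l' (b l')), ?_, ?_, ?_⟩
        · intro h
          have := congrFun (inj h) l
          simp only [Pi.add_apply, uv_ne hne, uv_self] at this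
          split_ifs at this <;> omega
        · simpa using adj (ds_uv (u + uv l (b l)) l' (b l'))
        · simp only [Fin.cons_succ]
          rw [add_right_comm]
          exact adj (ds_uv _ l (b l))

/-- flats of the maximal dimension are convex -/
theorem conv_of_dim (hΓ : IsMedian Γ) (hD : DimLE n Γ) {f : (Fin n → ℤ) → V}
    (hf : ∀ z w, Γ.dist (f z) (f w) = ds z w) : CFlat Γ f where
  flat := hf
  conv := by
    have key : ∀ (m : ℕ) (z w : Fin n → ℤ) (v : V), Γ.dist (f z) v = m →
        Γ.dist (f z) v + Γ.dist v (f w) = Γ.dist (f z) (f w) → ∃ u, f u = v := by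
      intro m
      induction m with
      | zero =>
        intro z w v h _
        exact ⟨z, (hΓ.eq_iff _ _).1 h⟩
      | succ m ih =>
        intro z w v h1 h2
        obtain ⟨p, hp⟩ := (hΓ.1 (f z) v).exists_walk_length_eq_dist
        cases p with
        | nil => exact ⟨z, rfl⟩
        | @cons _ y _ hy p' =>
          rw [SimpleGraph.Walk.length_cons] at hp
          have h3 := SimpleGraph.dist_le p'
          have h4 := hΓ.tri (f z) y (f w)
          have h5 := hΓ.tri y v (f w)
          have h6 := hΓ.tri (f z) y v
          have h7 : Γ.dist (f z) y = 1 := (adj_iff _ _).2 hy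
          obtain ⟨u, rfl⟩ := nbr_mem hΓ hD hf hy (w := w) (by
            rw [dcomm (f w) (f z), dcomm (f w) y]
            omega)
          exact ih u w v (by omega) (by omega)
    intro z w v h
    exact key _ z w v rfl h

end Pool.Agent.V5helper79.BX
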