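import Pool.Agent.N47.SQ.Det

/-!
# Convex flats in median graphs: sets of agreement
-/

set_option autoImplicit false

namespace Pool.Agent.V5helper79.BX

open Function Set
open Pool.Agent.N47.SQ

variable {V : Type*} {Γ : SimpleGraph V} {n : ℕ}

/-- the distance of the grid -/
def ds (z w : Fin n → ℤ) : ℕ := ∑ i, (z i - w i).natAbs

/-- coordinatewise between -/
def Btw (c u z : Fin n → ℤ) : Prop :=
  ∀ i, (c i - u i).natAbs + (u i - z i).natAbs = (c i - z i).natAbs

theorem ds_self (z : Fin n → ℤ) : ds z z = 0 := by simp [ds]

theorem ds_comm (z w : Fin n → ℤ) : ds z w = ds w z := by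
  unfold ds
  exact Finset.sum_congr rfl fun i _ => by omega

theorem eq_of_ds {z w : Fin n → ℤ} (h : ds z w = 0) : z = w := by
  funext i
  have := (Finset.sum_eq_zero_iff.1 h) i (Finset.mem_univ i)
  omega

theorem ds_upd (z w : Fin n → ℤ) (i : Fin n) (t : ℤ) :
    ds (update z i t) w + (z i - w i).natAbs = ds z w + (t - w i).natAbs := by
  unfold ds
  rw [← Finset.add_sum_erase _ _ (Finset.mem_univ i),
    ← Finset.add_sum_erase Finset.univ (fun k => (z k - w k).natAbs) (Finset.mem_univ i)]
  have : ∑ x ∈ Finset.univ.erase i, (update z i t x - w x).natAbs =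
      ∑ x ∈ Finset.univ.erase i, (z x - w x).natAbs := by
    refine Finset.sum_congr rfl fun x hx => ?_
    rw [update_of_ne (Finset.ne_of_mem_erase hx)]
  rw [this, update_self]
  omega

theorem ds_update (z : Fin n → ℤ) (i : Fin n) (t : ℤ) : ds z (update z i t) = (z i - t).natAbs := by
  rw [ds_comm]
  have := ds_upd z z i t
  rw [ds_self] at this
  omega

theorem ds_add (z w b : Fin n → ℤ) : ds (z + b) (w + b) = ds z w := by
  unfold ds
  exact Finset.sum_congr rfl fun i _ => by simp only [Pi.add_apply]; omega

theorem ds_tri (z u w : Fin n → ℤ) : ds z w ≤ ds z u + ds u w := by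
  unfold ds
  rw [← Finset.sum_add_distrib]
  exact Finset.sum_le_sum fun i _ => by omega

theorem btw_iff (z u w : Fin n → ℤ) : Btw z u w ↔ ds z u + ds u w = ds z w := by
  unfold ds Btw
  rw [← Finset.sum_add_distrib, eq_comm, Finset.sum_eq_sum_iff_of_le (fun i _ => by omega)]
  simp only [Finset.mem_univ, forall_true_left]
  exact forall_congr' fun i => eq_comm

/-- at distance one -/
theorem ds_one {a b : Fin n → ℤ} (h : ds a b = 1) :
    ∃ j, b = update a j (b j) ∧ (a j - b j).natAbs = 1 := by
  have hex : ∃ j, (a j - b j).natAbs ≠ 0 := by
    by_contra hc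
    push Not at hc
    have : ds a b = 0 := Finset.sum_eq_zero fun i _ => hc i
    omega
  obtain ⟨j, hj⟩ := hex
  have h1 := ds_upd a b j (b j)
  have h2 : (a j - b j).natAbs ≤ ds a b :=
    Finset.single_le_sum (f := fun i => (a i - b i).natAbs) (fun i _ => Nat.zero_le _)
      (Finset.mem_univ j)
  refine ⟨j, ?_, by omega⟩
  symm
  apply eq_of_ds
  simp only [sub_self, Int.natAbs_zero] at h1
  omega

/-- flats: isometric embeddings of the grid with convex image -/
structure CFlat (Γ : SimpleGraph V) (f : (Fin n → ℤ) → V) : Prop where
  flat : ∀ z w, Γ.dist (f z) (f w) = ds z w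
  conv : ∀ z w v, Γ.dist (f z) v + Γ.dist v (f w) = Γ.dist (f z) (f w) → ∃ u, f u = v

theorem CFlat.btw {f : (Fin n → ℤ) → V} (hf : CFlat Γ f) {z w : Fin n → ℤ} {v : V}
    (h : Γ.dist (f z) v + Γ.dist v (f w) = Γ.dist (f z) (f w)) : ∃ u, f u = v ∧ Btw z u w := by
  obtain ⟨u, rfl⟩ := hf.conv z w v h
  refine ⟨u, rfl, ?_⟩
  rw [btw_iff, ← hf.flat, ← hf.flat, ← hf.flat, h]

theorem CFlat.inj {f : (Fin n → ℤ) → V} (hf : CFlat Γ f) {z w : Fin n → ℤ} (h : f z = f w) :
    z = w := by
  apply eq_of_ds
  rw [← hf.flat, h, SimpleGraph.dist_self]

theorem CFlat.adj {f : (Fin n → ℤ) → V} (hf : CFlat Γ f) {z w : Fin n → ℤ} (h : ds z w = 1) :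
    Γ.Adj (f z) (f w) := by
  rw [← adj_iff, hf.flat, h]

/-- two flats which agree at three vertices of a square agree at the fourth -/
theorem corner (hΓ : IsMedian Γ) {f g : (Fin n → ℤ) → V} (hf : CFlat Γ f) (hg : CFlat Γ g)
    {u : Fin n → ℤ} {i j : Fin n} (hij : i ≠ j) {t t' : ℤ} (ht : (u i - t).natAbs = 1)
    (ht' : (u j - t').natAbs = 1) (h0 : f u = g u) (h1 : f (update u i t) = g (update u i t))
    (h2 : f (update u j t') = g (update u j t')) :
    f (update (update u i t) j t') = g (update (update u i t) j t') := by
  by_contra hne
  set w := update (update u i t) j t' with hw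
  have hw' : w = update (update u j t') i t := update_comm hij _ _ _
  have d1 : ds (update u i t) u = 1 := by rw [ds_comm, ds_update]; exact ht
  have d2 : ds (update u j t') u = 1 := by rw [ds_comm, ds_update]; exact ht'
  have d3 : ds (update u i t) w = 1 := by
    rw [hw, ds_update, update_of_ne hij.symm]; exact ht'
  have d4 : ds (update u j t') w = 1 := by
    rw [hw', ds_update, update_of_ne hij]; exact ht
  have n0 : u ≠ w := by
    intro h
    have := congrFun h i
    rw [hw', update_self] at this
    omega
  have := hf.inj (hΓ.common_nbr (hf.adj d1) (hf.adj d3) (by rw [h1]; exact hg.adj d3)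
    (hf.adj d2) (hf.adj d4) (by rw [h2]; exact hg.adj d4) (fun h => n0 (hf.inj h)) hne
    (fun h => n0 (hg.inj (h0 ▸ h))))
  have h3 := congrFun this i
  rw [update_self, update_of_ne hij] at h3
  omega

/-- agreement on the axes gives agreement on the box -/
theorem fill (hΓ : IsMedian Γ) {f g : (Fin n → ℤ) → V} (hf : CFlat Γ f) (hg : CFlat Γ g)
    {c : Fin n → ℤ} (h0 : f c = g c) : ∀ (m : ℕ) (u : Fin n → ℤ), ds c u = m →
      (∀ k t, (c k - t).natAbs + (t - u k).natAbs = (c k - u k).natAbs →
        f (update c k t) = g (update c k t)) → f u = g u := by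
  intro m
  induction m using Nat.strong_induction_on with
  | _ m ih =>
    intro u hu h
    by_cases h1 : ∀ k, u k = c k
    · rw [funext h1]; exact h0
    push Not at h1
    obtain ⟨i, hi⟩ := h1
    by_cases h2 : ∀ k, k ≠ i → u k = c k
    · have e : u = update c i (u i) := by
        funext k
        by_cases hk : k = i
        · subst hk; rw [update_self]
        · rw [update_of_ne hk, h2 k hk]
      rw [e]
      exact h i (u i) (by omega)
    push Not at h2
    obtain ⟨j, hji, hj⟩ := h2
    obtain ⟨ti, hti⟩ : ∃ t : ℤ, (t - u i).natAbs = 1 ∧ (c i - t).natAbs + 1 = (c i - u i).natAbs := by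
      rcases lt_or_gt_of_ne hi with h3 | h3
      · exact ⟨u i + 1, by omega, by omega⟩
      · exact ⟨u i - 1, by omega, by omega⟩
    obtain ⟨tj, htj⟩ : ∃ t : ℤ, (t - u j).natAbs = 1 ∧ (c j - t).natAbs + 1 = (c j - u j).natAbs := by
      rcases lt_or_gt_of_ne hj with h3 | h3
      · exact ⟨u j + 1, by omega, by omega⟩
      · exact ⟨u j - 1, by omega, by omega⟩
    have g1 : f (update u i ti) = g (update u i ti) := by
      refine ih (ds c (update u i ti)) ?_ _ rfl fun k t hk => h k t ?_
      · have := ds_upd u c i ti
        rw [ds_comm, ← hu, ds_comm c u]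
        omega
      · by_cases hki : k = i
        · subst hki; rw [update_self] at hk; omega
        · rw [update_of_ne hki] at hk; exact hk
    have g2 : f (update u j tj) = g (update u j tj) := by
      refine ih (ds c (update u j tj)) ?_ _ rfl fun k t hk => h k t ?_
      · have := ds_upd u c j tj
        rw [ds_comm, ← hu, ds_comm c u]
        omega
      · by_cases hkj : k = j
        · subst hkj; rw [update_self] at hk; omega
        · rw [update_of_ne hkj] at hk; exact hk
    have g3 : f (update (update u i ti) j tj) = g (update (update u i ti) j tj) := by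
      refine ih (ds c (update (update u i ti) j tj)) ?_ _ rfl fun k t hk => h k t ?_
      · have h3 := ds_upd u c i ti
        have h4 := ds_upd (update u i ti) c j tj
        rw [update_of_ne hji] at h4
        rw [ds_comm, ← hu, ds_comm c u]
        omega
      · by_cases hkj : k = j
        · subst hkj; rw [update_self] at hk; omega
        · rw [update_of_ne hkj] at hk
          by_cases hki : k = i
          · subst hki; rw [update_self] at hk; omega
          · rw [update_of_ne hki] at hk; exact hk
    have e1 : update (update (update u i ti) j tj) i (u i) = update u j tj := by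
      funext k
      by_cases hki : k = i
      · subst hki; rw [update_self, update_of_ne hji.symm]
      · by_cases hkj : k = j
        · subst hkj; rw [update_of_ne hki, update_self, update_self]
        · rw [update_of_ne hki, update_of_ne hkj, update_of_ne hki, update_of_ne hkj]
    have e2 : update (update (update u i ti) j tj) j (u j) = update u i ti := by
      funext k
      by_cases hkj : k = j
      · subst hkj; rw [update_self, update_of_ne hji]
      · rw [update_of_ne hkj, update_of_ne hkj]
    have e3 : update (update (update (update u i ti) j tj) i (u i)) j (u j) = u := by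
      rw [e1]
      funext k
      by_cases hkj : k = j
      · subst hkj; rw [update_self]
      · rw [update_of_ne hkj, update_of_ne hkj]
    have := corner hΓ hf hg (u := update (update u i ti) j tj) (i := i) (j := j) hji.symm
      (t := u i) (t' := u j) (by rw [update_of_ne hji.symm, update_self]; exact hti.1)
      (by rw [update_self]; exact htj.1) g3 (by rw [e1]; exact g2) (by rw [e2]; exact g1)
    rwa [e3] at this

/-- the main lemma on sets of agreement -/
theorem agree (hΓ : IsMedian Γ) {f g : (Fin n → ℤ) → V} (hf : CFlat Γ f) (hg : CFlat Γ g)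
    {c z w : Fin n → ℤ} (h0 : f c = g c)
    (hN : ∀ k t, (c k - t).natAbs = 1 → f (update c k t) = g (update c k t)) (h : f z = g w) :
    ∀ u, Btw c u z → f u = g u := by
  have ax : ∀ k, ∀ (m : ℕ) (t : ℤ), (c k - t).natAbs = m →
      (c k - t).natAbs + (t - z k).natAbs = (c k - z k).natAbs →
      f (update c k t) = g (update c k t) := by
    intro k m
    induction m using Nat.strong_induction_on with
    | _ m ih =>
      intro t htm htz
      rcases Nat.lt_or_ge m 2 with hm | hm
      · rcases Nat.lt_or_ge m 1 with hm' | hm'
        · have : t = c k := by omega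
          rw [this, update_eq_self]; exact h0
        · exact hN k t (by omega)
      obtain ⟨t1, ht1, ht1'⟩ : ∃ t1 : ℤ, (t1 - t).natAbs = 1 ∧ (c k - t1).natAbs + 1 = m := by
        rcases lt_or_ge t (c k) with h3 | h3
        · exact ⟨t + 1, by omega, by omega⟩
        · exact ⟨t - 1, by omega, by omega⟩
      have ih1 : ∀ t' : ℤ, (c k - t').natAbs + (t' - t1).natAbs = (c k - t1).natAbs →
          f (update c k t') = g (update c k t') := fun t' h' =>
        ih _ (by omega) t' rfl (by omega)
      have hx1 := ih1 t1 (by omega)
      -- the vertex on the image of `g`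
      have hbt : Btw c (update c k t) z := by
        intro l
        by_cases hl : l = k
        · subst hl; rw [update_self]; exact htz
        · rw [update_of_ne hl]; omega
      have hd := (btw_iff _ _ _).1 hbt
      obtain ⟨u', hu', hbw⟩ := hg.btw (z := c) (w := w) (v := f (update c k t)) (by
        rw [← h0, ← h, hf.flat, hf.flat, hf.flat]; exact hd)
      have hd1 : ds c u' = m := by
        rw [← hg.flat, hu', ← h0, hf.flat, ds_update, htm]
      have hd2 : ds (update c k t1) u' = 1 := by
        rw [← hg.flat, hu', ← hx1, hf.flat]
        have := ds_upd c (update c k t) k t1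
        rw [ds_update, update_self] at this
        omega
      obtain ⟨j, hj1, hj2⟩ := ds_one hd2
      by_cases hjk : j = k
      · subst hjk
        rw [update_self] at hj2
        rw [update_idem] at hj1
        rw [hj1, ds_update] at hd1
        have : u' j = t := by
          rw [hj1, update_self] at *
          omega
        rw [this] at hj1
        rw [← hu', hj1]
      · exfalso
        rw [update_of_ne hjk] at hj2
        have hk' : u' k = t1 := by
          rw [hj1, update_of_ne (Ne.symm hjk), update_self]
        have hfu : f u' = g u' := by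
          refine fill hΓ hf hg h0 _ u' rfl fun l t' hl => ?_
          by_cases hlk : l = k
          · subst hlk
            rw [hk'] at hl
            exact ih1 t' hl
          · by_cases hlj : l = j
            · subst hlj
              rcases Nat.eq_zero_or_pos (c l - t').natAbs with h3 | h3
              · have : t' = c l := by omega
                rw [this, update_eq_self]; exact h0
              · exact hN l t' (by omega)
            · have e : u' l = c l := by
                rw [hj1, update_of_ne hlj, update_of_ne hlk]
              rw [e] at hl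
              have : t' = c l := by omega
              rw [this, update_eq_self]; exact h0
        have := hf.inj (hfu.trans hu')
        rw [this, update_self] at hk'
        omega
  intro u hu
  refine fill hΓ hf hg h0 _ u rfl fun k t hk => ax k _ t rfl ?_
  have := hu k
  omega

/-- if the images meet then the parameters agree -/
theorem agree_eq (hΓ : IsMedian Γ) {f g : (Fin n → ℤ) → V} (hf : CFlat Γ f) (hg : CFlat Γ g)
    {c z w : Fin n → ℤ} (h0 : f c = g c)
    (hN : ∀ k t, (c k - t).natAbs = 1 → f (update c k t) = g (update c k t)) (h : f z = g w) :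
    z = w := by
  have h1 := agree hΓ hf hg h0 hN h z (fun i => by omega)
  exact hg.inj (h1.symm.trans h)

/-- the set of agreement is a box -/
theorem box_iff (hΓ : IsMedian Γ) {f g : (Fin n → ℤ) → V} (hf : CFlat Γ f) (hg : CFlat Γ g)
    {c : Fin n → ℤ} (h0 : f c = g c)
    (hN : ∀ k t, (c k - t).natAbs = 1 → f (update c k t) = g (update c k t)) (u : Fin n → ℤ) :
    f u = g u ↔ ∀ k, f (update c k (u k)) = g (update c k (u k)) := by
  constructor
  · intro h k
    refine agree hΓ hf hg h0 hN h _ fun l => ?_
    by_cases hl : l = k
    · subst hl; rw [update_self]; omega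
    · rw [update_of_ne hl]; omega
  · intro h
    refine fill hΓ hf hg h0 _ u rfl fun k t hk => ?_
    refine agree hΓ hf hg h0 hN (h k) _ fun l => ?_
    by_cases hl : l = k
    · subst hl; rw [update_self, update_self]; exact hk
    · rw [update_of_ne hl, update_of_ne hl]; omega

end Pool.Agent.V5helper79.BX
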