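import Pool.Agent.V5helper79.BX.Flat

/-!
# Convex flats in median graphs: half-spaces
-/

set_option autoImplicit false

namespace Pool.Agent.V5helper79.BX

open Function Set
open Pool.Agent.N47.SQ

variable {V : Type*} {Γ : SimpleGraph V} {n : ℕ}

/-- the unit vectors -/
def uv (i : Fin n) (b : Bool) : Fin n → ℤ := Pi.single i (if b then 1 else -1)

theorem uv_self (i : Fin n) (b : Bool) : uv i b i = if b then 1 else -1 := by simp [uv]

theorem uv_true (i : Fin n) : uv i true i = 1 := by simp [uv]

theorem uv_ne {i k : Fin n} (h : k ≠ i) (b : Bool) : uv i b k = 0 := by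
  simp [uv, h]

theorem add_uv (x : Fin n → ℤ) (i : Fin n) (b : Bool) (a : ℤ) :
    x + a • uv i b = update x i (x i + a * (if b then 1 else -1)) := by
  funext k
  by_cases hk : k = i
  · subst hk; simp [uv]
  · simp [uv, hk]

theorem ds_line (x : Fin n → ℤ) (i : Fin n) (b : Bool) (a c : ℤ) :
    ds (x + a • uv i b) (x + c • uv i b) = (a - c).natAbs := by
  rw [add_uv, add_uv]
  have : update x i (x i + c * (if b then 1 else -1)) =
      update (update x i (x i + a * (if b then 1 else -1))) i (x i + c * (if b then 1 else -1)) := by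
    rw [update_idem]
  rw [this, ds_update, update_self]
  cases b
  · simp only [Bool.false_eq_true, if_false]; omega
  · simp only [if_true]; omega

theorem ds_uv (x : Fin n → ℤ) (i : Fin n) (b : Bool) : ds x (x + uv i b) = 1 := by
  have := ds_line x i b 0 1
  simpa using this

/-- the distance from a vertex has no local maximum on a line -/
theorem no_max (hΓ : IsMedian Γ) {f : (Fin n → ℤ) → V} (hf : CFlat Γ f) (v : V) (x : Fin n → ℤ)
    (j : Fin n) (h1 : Γ.dist v (f x) = Γ.dist v (f (x - uv j true)) + 1)
    (h2 : Γ.dist v (f x) = Γ.dist v (f (x + uv j true)) + 1) : False := by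
  have e0 : x - uv j true + uv j true = x := by abel
  have d1 : ds x (x - uv j true) = 1 := by
    have := ds_uv (x - uv j true) j true
    rw [e0] at this
    rw [ds_comm]; exact this
  have d2 : ds (x - uv j true) (x + uv j true) = 2 := by
    have := ds_line (x - uv j true) j true 0 2
    rw [zero_smul, add_zero, two_smul, ← add_assoc, e0] at this
    simpa using this
  have a1 := hf.adj d1
  have a2 := hf.adj (ds_uv x j true)
  have n1 : f (x - uv j true) ≠ f (x + uv j true) := fun h => by
    rw [hf.inj h, ds_self] at d2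
    omega
  obtain ⟨s, s1, s2, s3⟩ := hΓ.quad a1 a2 n1 h1 h2
  obtain ⟨u, hu, hb⟩ := hf.btw (z := x - uv j true) (w := x + uv j true) (v := s) (by
    rw [(adj_iff _ _).2 s1, (adj_iff _ _).2 s2.symm, hf.flat, d2])
  have d3 : ds (x - uv j true) u = 1 := by
    rw [← hf.flat, hu]; exact (adj_iff _ _).2 s1
  have e : u = x := by
    funext k
    have hk := hb k
    by_cases hkj : k = j
    · subst hkj
      have h4 : (((x - uv k true) k - u k).natAbs : ℕ) ≤ ds (x - uv k true) u :=
        Finset.single_le_sum (f := fun i => ((x - uv k true) i - u i).natAbs)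
          (fun i _ => Nat.zero_le _) (Finset.mem_univ k)
      have h5 : ds u (x + uv k true) = 1 := by
        have := (btw_iff _ _ _).1 hb
        omega
      have h6 : ((u k - (x + uv k true) k).natAbs : ℕ) ≤ ds u (x + uv k true) :=
        Finset.single_le_sum (f := fun i => (u i - (x + uv k true) i).natAbs)
          (fun i _ => Nat.zero_le _) (Finset.mem_univ k)
      simp only [Pi.sub_apply, Pi.add_apply, uv_true] at hk h4 h6
      omega
    · simp only [Pi.sub_apply, Pi.add_apply, uv_ne hkj] at hk
      omega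
  rw [← hu, e] at s3
  omega

/-- nested half-spaces -/
theorem nested (hΓ : IsMedian Γ) {f : (Fin n → ℤ) → V} (hf : CFlat Γ f) (v : V) (x : Fin n → ℤ)
    (j : Fin n) (L : ℕ)
    (h : Γ.dist v (f (x + ((L : ℤ) + 1) • uv j true)) < Γ.dist v (f (x + (L : ℤ) • uv j true))) :
    Γ.dist v (f (x + uv j true)) < Γ.dist v (f x) := by
  by_contra hc
  have key : ∀ m : ℕ, Γ.dist v (f (x + ((m : ℤ) + 1) • uv j true)) =
      Γ.dist v (f (x + (m : ℤ) • uv j true)) + 1 := by
    intro m
    induction m with
    | zero =>
      have := hΓ.ne_dist (hf.adj (ds_uv x j true)) v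
      simp only [Nat.cast_zero, zero_add, one_smul, zero_smul, add_zero]
      omega
    | succ m ih =>
      have h1 := hΓ.ne_dist (hf.adj (ds_uv (x + ((m : ℤ) + 1) • uv j true) j true)) v
      have e1 : x + ((m : ℤ) + 1) • uv j true + uv j true =
          x + (((m + 1 : ℕ) : ℤ) + 1) • uv j true := by
        push_cast
        rw [add_smul ((m : ℤ) + 1) 1, one_smul, add_assoc]
      rcases h1 with h1 | h1
      · exfalso
        refine no_max hΓ hf v (x + ((m : ℤ) + 1) • uv j true) j ?_ h1
        rw [ih]
        congr 3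
        rw [add_smul, one_smul]
        abel
      · rw [e1] at h1
        rw [h1]
        push_cast
        rfl
  have := key L
  omega

/-- parallel edges of a strip -/
theorem par1 (hΓ : IsMedian Γ) {f : (Fin n → ℤ) → V} (hf : CFlat Γ f) {v : V} {i j : Fin n}
    (hij : i ≠ j) (b c : Bool) {x : Fin n → ℤ}
    (h : Γ.dist v (f (x + uv j c)) < Γ.dist v (f x)) :
    Γ.dist v (f (x + uv i b + uv j c)) < Γ.dist v (f (x + uv i b)) := by
  refine parallel hΓ (hf.adj (ds_uv x j c)) (hf.adj (ds_uv (x + uv i b) j c))
    (hf.adj (ds_uv x i b)) ?_ ?_ ?_ h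
  · refine hf.adj ?_
    rw [add_right_comm]
    exact ds_uv _ i b
  · intro h1
    have := congrFun (hf.inj h1) j
    simp only [Pi.add_apply, uv_ne hij.symm, uv_self] at this
    split_ifs at this <;> omega
  · intro h1
    have := congrFun (hf.inj h1) j
    simp only [Pi.add_apply, uv_ne hij.symm, uv_self] at this
    split_ifs at this <;> omega

theorem par (hΓ : IsMedian Γ) {f : (Fin n → ℤ) → V} (hf : CFlat Γ f) {v : V} {i j : Fin n}
    (hij : i ≠ j) (b c : Bool) (m : ℕ) : ∀ x : Fin n → ℤ,
    (Γ.dist v (f (x + uv j c)) < Γ.dist v (f x) ↔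
    Γ.dist v (f (x + (m : ℤ) • uv i b + uv j c)) < Γ.dist v (f (x + (m : ℤ) • uv i b))) := by
  have key : ∀ x : Fin n → ℤ, Γ.dist v (f (x + uv j c)) < Γ.dist v (f x) ↔
      Γ.dist v (f (x + uv i b + uv j c)) < Γ.dist v (f (x + uv i b)) := by
    intro x
    refine ⟨par1 hΓ hf hij b c, fun h => ?_⟩
    have h1 := par1 hΓ hf hij (!b) c h
    have e : x + uv i b + uv i (!b) = x := by
      funext k
      by_cases hk : k = i
      · subst hk
        cases b <;> simp [uv]
      · simp only [Pi.add_apply, uv_ne hk]; omega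
    rwa [e] at h1
  induction m with
  | zero => intro x; simp
  | succ m ih =>
    intro x
    rw [ih x, key (x + (m : ℤ) • uv i b)]
    have e : x + ((m + 1 : ℕ) : ℤ) • uv i b = x + (m : ℤ) • uv i b + uv i b := by
      push_cast
      rw [add_smul, one_smul, add_assoc]
    rw [e]

end Pool.Agent.V5helper79.BX
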