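import Pool.Agent.V5helper79.BX.Det

/-!
# Pairs of flats with bounded sets of agreement
-/

set_option autoImplicit false

namespace Pool.Agent.V5helper79.BX

open Function Set
open Pool.Agent.N47.SQ (IsMedian adj_iff dcomm z2_of)

variable {n : ℕ} {V : Type*} {G : Type*} [Group G] [MulAction G V] {Γ : SimpleGraph V}

/-- there are pairs of flats in `L` which agree on large windows and whose set of agreement is
bounded in the directions in `F` -/
def Pr (L : Set ((Fin n → ℤ) → V)) (F : Finset (Fin n × Bool)) : Prop :=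
  ∀ R : ℕ, ∃ h ∈ L, ∃ k ∈ L, (∀ z ∈ Win n R, h z = k z) ∧
    ∀ d ∈ F, ∃ t : ℕ, h ((t : ℤ) • uv d.1 d.2) ≠ k ((t : ℤ) • uv d.1 d.2)

theorem win_mono {R S : ℕ} (h : R ≤ S) {z : Fin n → ℤ} (hz : z ∈ Win n R) : z ∈ Win n S :=
  fun k => (hz k).trans h

/-- one direction -/
theorem single (hA : Act G Γ) {L : Set ((Fin n → ℤ) → V)} (hL : Sys G Γ L) (hne : L.Nonempty)
    (hn : 2 ≤ n) (hZ : ¬ ∃ φ : Multiplicative (ℤ × ℤ) →* G, Injective φ) (i : Fin n) (b : Bool)
    (R : ℕ) : ∃ h ∈ L, ∃ k ∈ L, (∀ z ∈ Win n R, h z = k z) ∧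
      ∃ t : ℕ, h ((t : ℤ) • uv i b) ≠ k ((t : ℤ) • uv i b) := by
  by_contra hc
  push Not at hc
  obtain ⟨f, hf⟩ := hne
  obtain ⟨j, hj⟩ : ∃ j : Fin n, i ≠ j := by
    by_cases h0 : i = ⟨0, by omega⟩
    · exact ⟨⟨1, by omega⟩, by rw [h0]; intro h; simpa using congrArg Fin.val h⟩
    · exact ⟨⟨0, by omega⟩, h0⟩
  refine hZ (det_up hA hL (R := R + 1) (by omega) hj (b := b) (fun h hh k hk hag t => ?_) hf)
  exact hc h hh k hk (fun z hz => hag z (win_mono (by omega) hz)) t

/-- change of the base point -/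
theorem escape (hΓ : IsMedian Γ) {f g : (Fin n → ℤ) → V} (hf : CFlat Γ f) (hg : CFlat Γ g)
    {S T : ℕ} (hT : S + 1 ≤ T) (hag : ∀ z ∈ Win n T, f z = g z) {z0 : Fin n → ℤ}
    (hz0 : z0 ∈ Win n S) {i : Fin n} {b : Bool} {t : ℕ}
    (ht : f ((t : ℤ) • uv i b) ≠ g ((t : ℤ) • uv i b)) :
    ∃ t' : ℕ, f (z0 + (t' : ℤ) • uv i b) ≠ g (z0 + (t' : ℤ) • uv i b) := by
  by_contra hc
  push Not at hc
  apply ht
  rw [box_iff hΓ hf hg (c := z0) (hag _ (win_mono (by omega) hz0)) (by
    intro k s hs
    refine hag _ fun m => ?_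
    by_cases hm : m = k
    · subst hm
      rw [update_self]
      have := hz0 m
      omega
    · rw [update_of_ne hm]
      have := hz0 m
      omega)]
  intro l
  by_cases hl : l = i
  · subst hl
    have hzl := hz0 l
    rw [Pi.smul_apply, uv_self, smul_eq_mul]
    by_cases h1 : ((t : ℤ) * (if b then 1 else -1)).natAbs ≤ S
    · refine hag _ fun m => ?_
      by_cases hm : m = l
      · subst hm
        rw [update_self]
        omega
      · rw [update_of_ne hm]
        have := hz0 m
        omega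
    · obtain ⟨t', ht'⟩ : ∃ t' : ℕ, (t : ℤ) * (if b then 1 else -1) =
          z0 l + (t' : ℤ) * (if b then 1 else -1) := by
        cases b
        · refine ⟨(t + z0 l).toNat, ?_⟩
          simp only [Bool.false_eq_true, if_false] at h1 ⊢
          omega
        · refine ⟨(t - z0 l).toNat, ?_⟩
          simp only [if_true] at h1 ⊢
          omega
      rw [ht', ← add_uv]
      exact hc t'
  · rw [Pi.smul_apply, uv_ne hl, smul_zero]
    refine hag _ fun m => ?_
    by_cases hm : m = l
    · subst hm
      rw [update_self]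
      simp
    · rw [update_of_ne hm]
      have := hz0 m
      omega

/-- one more direction -/
theorem Pr.insert (hA : Act G Γ) {L : Set ((Fin n → ℤ) → V)} (hL : IsMin G Γ L) (hn : 2 ≤ n)
    (hZ : ¬ ∃ φ : Multiplicative (ℤ × ℤ) →* G, Injective φ) {F : Finset (Fin n × Bool)}
    (hF : Pr L F) (d : Fin n × Bool) : Pr L (insert d F) := by
  classical
  intro R
  obtain ⟨h', hh', k', hk', hag', hd'⟩ := hF R
  choose! T hT using hd'
  set q := R + ∑ x ∈ F, T x with hq
  have hTq : ∀ e ∈ F, T e ≤ q := fun e he =>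
    (Finset.single_le_sum (f := T) (fun _ _ => Nat.zero_le _) he).trans (by omega)
  obtain ⟨N, hN⟩ := hL.recur hA hh' q
  obtain ⟨f1, hf1, f2, hf2, hag, t, ht⟩ := single hA hL.sys hL.ne hn hZ d.1 d.2 (N + q + 1)
  obtain ⟨z0, hz0, g, hg⟩ := hN f2 hf2
  obtain ⟨t', ht'⟩ := escape hA.med (hL.sys.flat _ hf1) (hL.sys.flat _ hf2)
    (S := N) (T := N + q + 1) (by omega) hag hz0 ht
  -- the three flats
  have m1 := hL.sys.mv f1 hf1 1 z0
  have m2 := hL.sys.mv f2 hf2 1 z0
  have m3 := hL.sys.mv k' hk' g⁻¹ 0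
  have e2 : ∀ z ∈ Win n q, f2 (z + z0) = g⁻¹ • h' z := fun z hz => by
    rw [← hg z hz, inv_smul_smul]
  have e1 : ∀ z ∈ Win n q, f1 (z + z0) = g⁻¹ • h' z := fun z hz => by
    rw [← e2 z hz]
    refine hag _ fun k => ?_
    have h1 := hz k
    have h2 := hz0 k
    simp only [Pi.add_apply]
    omega
  have hWR : ∀ z ∈ Win n R, z ∈ Win n q := fun z hz => win_mono (by omega) hz
  have hmem : ∀ e ∈ F, (T e : ℤ) • uv e.1 e.2 ∈ Win n q := by
    intro e he
    rw [smul_uv]
    refine upd_mem _ ?_
    have := hTq e he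
    cases e.2
    · simp only [Bool.false_eq_true, if_false]; omega
    · simp only [if_true]; omega
  by_cases hcase : f1 (z0 + (t' : ℤ) • uv d.1 d.2) = g⁻¹ • k' ((t' : ℤ) • uv d.1 d.2 + 0)
  · refine ⟨_, m2, _, m3, ?_, ?_⟩
    · intro z hz
      simp only [one_smul, add_zero]
      rw [e2 z (hWR z hz), hag' z hz]
    · intro e he
      rcases Finset.mem_insert.1 he with rfl | he
      · refine ⟨t', ?_⟩
        simp only [one_smul]
        rw [← hcase, add_comm]
        exact fun h => ht' h.symm
      · refine ⟨T e, ?_⟩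
        simp only [one_smul, add_zero]
        rw [e2 _ (hmem e he)]
        exact fun h => hT e he (smul_left_cancel _ h)
  · refine ⟨_, m1, _, m3, ?_, ?_⟩
    · intro z hz
      simp only [one_smul, add_zero]
      rw [e1 z (hWR z hz), hag' z hz]
    · intro e he
      rcases Finset.mem_insert.1 he with rfl | he
      · refine ⟨t', ?_⟩
        simp only [one_smul]
        rw [add_comm]
        exact hcase
      · refine ⟨T e, ?_⟩
        simp only [one_smul, add_zero]
        rw [e1 _ (hmem e he)]
        exact fun h => hT e he (smul_left_cancel _ h)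

/-- all directions -/
theorem Pr.all (hA : Act G Γ) {L : Set ((Fin n → ℤ) → V)} (hL : IsMin G Γ L) (hn : 2 ≤ n)
    (hZ : ¬ ∃ φ : Multiplicative (ℤ × ℤ) →* G, Injective φ) (F : Finset (Fin n × Bool)) :
    Pr L F := by
  classical
  induction F using Finset.induction_on with
  | empty =>
    intro R
    obtain ⟨h, hh⟩ := hL.ne
    exact ⟨h, hh, h, hh, fun _ _ => rfl, fun d hd => absurd hd (Finset.notMem_empty d)⟩
  | insert d F _ ih => exact ih.insert hA hL hn hZ d

/-- the box with the faces `- b`, `a` -/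
def Bx (a b : Fin n → ℕ) : Set (Fin n → ℤ) := {z | ∀ l, -(b l : ℤ) ≤ z l ∧ z l ≤ a l}

/-- a box of agreement in a larger window is the set of agreement -/
theorem exact_win (hΓ : IsMedian Γ) {f g : (Fin n → ℤ) → V} (hf : CFlat Γ f) (hg : CFlat Γ g)
    {a b : Fin n → ℕ} {q : ℕ} (ha : ∀ l, 1 ≤ a l ∧ a l < q) (hb : ∀ l, 1 ≤ b l ∧ b l < q)
    (h : ∀ l (t : ℤ), t.natAbs ≤ q → (f (update 0 l t) = g (update 0 l t) ↔ -(b l : ℤ) ≤ t ∧ t ≤ a l))
    (z : Fin n → ℤ) (hn : 0 < n) : f z = g z ↔ z ∈ Bx a b := by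
  have h0 : f 0 = g 0 := by
    have := (h ⟨0, hn⟩ 0 (by simp)).2 ⟨by omega, by omega⟩
    have e : update (0 : Fin n → ℤ) ⟨0, hn⟩ 0 = 0 := update_eq_self _ _
    rwa [e] at this
  have hN : ∀ (k : Fin n) (t : ℤ), ((0 : Fin n → ℤ) k - t).natAbs = 1 →
      f (update 0 k t) = g (update 0 k t) := by
    intro k t ht
    have h1 := ha k
    have h2 := hb k
    simp only [Pi.zero_apply] at ht
    exact (h k t (by omega)).2 ⟨by omega, by omega⟩
  rw [box_iff hΓ hf hg h0 hN]
  constructor
  · intro h1 l
    have h2 := h1 l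
    have hal := ha l
    have hbl := hb l
    by_contra hc
    have key : ∀ t : ℤ, t.natAbs ≤ q → (0 - t).natAbs + (t - z l).natAbs = (0 - z l).natAbs →
        -(b l : ℤ) ≤ t ∧ t ≤ a l := by
      intro t ht htz
      refine (h l t ht).1 ?_
      refine agree hΓ hf hg h0 hN h2 _ fun m => ?_
      by_cases hm : m = l
      · subst hm
        rw [update_self, update_self]
        exact htz
      · rw [update_of_ne hm, update_of_ne hm]
        simp
    rcases lt_or_ge (z l) (-(b l : ℤ)) with h3 | h3
    · have := key (-(b l : ℤ) - 1) (by omega) (by omega)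
      omega
    · have := key ((a l : ℤ) + 1) (by omega) (by omega)
      omega
  · intro h1 l
    have h2 := h1 l
    have hal := ha l
    have hbl := hb l
    exact (h l (z l) (by omega)).2 h2

/-- pairs with a finite box of agreement -/
theorem finite_box (hA : Act G Γ) {L : Set ((Fin n → ℤ) → V)} (hL : IsMin G Γ L) (hn : 2 ≤ n)
    (hZ : ¬ ∃ φ : Multiplicative (ℤ × ℤ) →* G, Injective φ) (R : ℕ) :
    ∃ h ∈ L, ∃ k ∈ L, ∃ a b : Fin n → ℕ, (∀ l, R < a l ∧ R < b l) ∧
      ∀ z, h z = k z ↔ z ∈ Bx a b := by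
  classical
  obtain ⟨h, hh, k, hk, hag, hd⟩ := Pr.all hA hL hn hZ Finset.univ (R + 1)
  have hd' : ∀ (l : Fin n) (b : Bool), ∃ t : ℕ, h ((t : ℤ) • uv l b) ≠ k ((t : ℤ) • uv l b) :=
    fun l b => hd (l, b) (Finset.mem_univ _)
  have h0 := hag 0 (zero_mem _)
  have hN := nbr (by omega) hag
  have hlt : ∀ l b, R + 1 < Nat.find (hd' l b) := by
    intro l b
    rw [Nat.lt_find_iff]
    intro m hm hne
    apply hne
    refine hag _ ?_
    rw [smul_uv]
    refine upd_mem _ ?_
    cases b
    · simp only [Bool.false_eq_true, if_false]; omega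
    · simp only [if_true]; omega
  have hax : ∀ l b (t : ℕ), h ((t : ℤ) • uv l b) = k ((t : ℤ) • uv l b) ↔
      t < Nat.find (hd' l b) := by
    intro l b t
    constructor
    · intro he
      by_contra hc
      apply Nat.find_spec (hd' l b)
      refine agree hA.med (hL.sys.flat h hh) (hL.sys.flat k hk) h0 hN he _ fun m => ?_
      rw [smul_uv, smul_uv]
      by_cases hm : m = l
      · subst hm
        rw [update_self, update_self]
        simp only [Pi.zero_apply]
        cases b
        · simp only [Bool.false_eq_true, if_false]; omega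
        · simp only [if_true]; omega
      · rw [update_of_ne hm, update_of_ne hm]
        simp
    · intro ht
      by_contra hc
      exact absurd (Nat.find_min' (hd' l b) hc) (by omega)
  refine ⟨h, hh, k, hk, fun l => Nat.find (hd' l true) - 1, fun l => Nat.find (hd' l false) - 1,
    fun l => ?_, fun z => ?_⟩
  · have h1 := hlt l true
    have h2 := hlt l false
    beta_reduce
    omega
  · set q := 1 + ∑ l, (Nat.find (hd' l true) + Nat.find (hd' l false)) with hq
    have hqq : ∀ l, Nat.find (hd' l true) + Nat.find (hd' l false) < q := fun l => by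
      have := Finset.single_le_sum (f := fun l => Nat.find (hd' l true) + Nat.find (hd' l false))
        (fun _ _ => Nat.zero_le _) (Finset.mem_univ l)
      omega
    refine exact_win hA.med (hL.sys.flat h hh) (hL.sys.flat k hk) (q := q) (fun l => ?_)
      (fun l => ?_) (fun l t _ => ?_) z (by omega)
    · have h1 := hlt l true
      have h2 := hqq l
      omega
    · have h1 := hlt l false
      have h2 := hqq l
      omega
    · have h1 := hlt l true
      have h2 := hlt l false
      rcases le_or_gt 0 t with h3 | h3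
      · have e : update (0 : Fin n → ℤ) l t = ((t.toNat : ℕ) : ℤ) • uv l true := by
          rw [smul_uv]
          simp only [if_true]
          rw [show ((t.toNat : ℕ) : ℤ) * 1 = t by omega]
        rw [e, hax]
        omega
      · have e : update (0 : Fin n → ℤ) l t = (((-t).toNat : ℕ) : ℤ) • uv l false := by
          rw [smul_uv]
          simp only [Bool.false_eq_true, if_false]
          rw [show (((-t).toNat : ℕ) : ℤ) * (-1) = t by omega]
        rw [e, hax]
        omega

/-- every flat meets some flat near every point exactly in a copy of the box -/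
theorem every (hA : Act G Γ) {L : Set ((Fin n → ℤ) → V)} (hL : IsMin G Γ L) (hn : 2 ≤ n)
    (hZ : ¬ ∃ φ : Multiplicative (ℤ × ℤ) →* G, Injective φ) (R : ℕ) :
    ∃ (m : Fin n → ℕ) (S : ℕ), (∀ l, R ≤ m l) ∧ ∀ h ∈ L, ∀ p : Fin n → ℤ, ∃ c : Fin n → ℤ,
      (∀ l, |c l - p l| ≤ S) ∧ ∃ k ∈ L, ∀ z w, h z = k w ↔ z = w ∧ ∀ l, c l ≤ z l ∧ z l ≤ c l + m l := by
  obtain ⟨h', hh', k', hk', a, b, hab, hbox⟩ := finite_box hA hL hn hZ R
  set q := 1 + ∑ l, (a l + b l) with hq
  have hqq : ∀ l, a l + b l < q := fun l => by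
    have := Finset.single_le_sum (f := fun l => a l + b l)
      (fun _ _ => Nat.zero_le _) (Finset.mem_univ l)
    omega
  obtain ⟨N, hN⟩ := hL.recur hA hh' q
  refine ⟨fun l => a l + b l, N + q, fun l => by have := hab l; beta_reduce; omega, ?_⟩
  intro h hh p
  obtain ⟨z0, hz0, g, hg⟩ := hN _ (hL.sys.mv h hh 1 p)
  simp only [one_smul] at hg
  have hH := hL.sys.mv h hh 1 (z0 + p)
  have hK := hL.sys.mv k' hk' g⁻¹ 0
  have hK2 := hL.sys.mv k' hk' g⁻¹ (-(z0 + p))
  have hHf := hL.sys.flat _ hH
  have hKf := hL.sys.flat _ hK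
  simp only [one_smul, add_zero] at hHf hKf
  have key : ∀ z, h (z + (z0 + p)) = g⁻¹ • k' z ↔ z ∈ Bx a b := by
    intro z
    refine exact_win hA.med hHf hKf (q := q) (fun l => ?_) (fun l => ?_) (fun l t ht => ?_) z
      (by omega)
    · have h1 := hab l
      have h2 := hqq l
      omega
    · have h1 := hab l
      have h2 := hqq l
      omega
    · have h1 := hg (update 0 l t) (upd_mem l ht)
      rw [add_assoc] at h1
      rw [← smul_left_cancel_iff g, h1, smul_inv_smul, hbox]
      constructor
      · intro h2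
        have := h2 l
        rwa [update_self] at this
      · intro h2 m
        by_cases hm : m = l
        · subst hm
          rw [update_self]
          exact h2
        · rw [update_of_ne hm]
          simp
  refine ⟨fun l => z0 l + p l - b l, fun l => ?_, _, hK2, fun z w => ?_⟩
  · have h1 := hz0 l
    have h2 := hqq l
    rw [abs_le]
    push_cast
    constructor <;> omega
  · have hNb : ∀ (l : Fin n) (t : ℤ), ((0 : Fin n → ℤ) l - t).natAbs = 1 →
        h (update (0 : Fin n → ℤ) l t + (z0 + p)) = g⁻¹ • k' (update (0 : Fin n → ℤ) l t) := by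
      intro l t ht
      rw [key]
      intro m
      have h1 := hab m
      simp only [Pi.zero_apply] at ht
      by_cases hm : m = l
      · subst hm
        rw [update_self]
        omega
      · rw [update_of_ne hm]
        simp
    have h00 : h ((0 : Fin n → ℤ) + (z0 + p)) = g⁻¹ • k' (0 : Fin n → ℤ) := by
      rw [key]
      intro m
      simp
    have e1 : h z = h ((z - (z0 + p)) + (z0 + p)) := by rw [sub_add_cancel]
    constructor
    · intro heq
      rw [e1] at heq
      have h1 := agree_eq hA.med hHf hKf h00 hNb (z := z - (z0 + p)) (w := w + -(z0 + p)) heq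
      have h2 : z = w := by
        rw [← sub_eq_add_neg] at h1
        exact sub_left_injective h1
      refine ⟨h2, fun l => ?_⟩
      rw [← h1, key] at heq
      have h3 := heq l
      simp only [Pi.sub_apply, Pi.add_apply] at h3
      push_cast
      omega
    · rintro ⟨rfl, h1⟩
      rw [e1, ← sub_eq_add_neg, key]
      intro l
      have h2 := h1 l
      simp only [Pi.sub_apply, Pi.add_apply]
      push_cast at h2
      omega

end Pool.Agent.V5helper79.BX
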