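import Pool.Agent.V5helper79.BX.Lines

/-!
# Closed invariant families of convex flats
-/

set_option autoImplicit false

namespace Pool.Agent.V5helper79.BX

open Function Set
open Pool.Agent.N47.SQ (IsMedian adj_iff dcomm cluster)

variable {n : ℕ}

/-- the window of radius `R` -/
def Win (n R : ℕ) : Set (Fin n → ℤ) := {z | ∀ k, (z k).natAbs ≤ R}

theorem win_finite (R : ℕ) : (Win n R).Finite := by
  refine (Set.finite_Icc (fun _ : Fin n => -(R : ℤ)) (fun _ => (R : ℤ))).subset fun z hz => ?_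
  constructor <;> intro k <;> have := hz k <;> simp only [] <;> omega

/-- the norm -/
def nm (z : Fin n → ℤ) : ℕ := ∑ k, (z k).natAbs

theorem le_nm (z : Fin n → ℤ) (k : Fin n) : (z k).natAbs ≤ nm z :=
  Finset.single_le_sum (f := fun k => (z k).natAbs) (fun _ _ => Nat.zero_le _) (Finset.mem_univ k)

theorem mem_nm (z : Fin n → ℤ) : z ∈ Win n (nm z) := le_nm z

theorem ds_zero (z : Fin n → ℤ) : ds 0 z = nm z := by
  unfold ds nm
  exact Finset.sum_congr rfl fun i _ => by simp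

variable {V : Type*} {G : Type*} [Group G] [MulAction G V] {Γ : SimpleGraph V}

/-- geometric actions on median graphs -/
structure Act (G : Type*) [Group G] [MulAction G V] (Γ : SimpleGraph V) : Prop where
  med : IsMedian Γ
  fin : ∀ v, {w | Γ.Adj v w}.Finite
  aut : ∀ (g : G) (a b : V), Γ.Adj a b → Γ.Adj (g • a) (g • b)
  stab : ∀ v : V, {g : G | g • v = v}.Finite
  orb : ∃ K : Set V, K.Finite ∧ ∀ v : V, ∃ g : G, g • v ∈ K

theorem Act.dist_le (hA : Act G Γ) (g : G) (a b : V) : Γ.dist (g • a) (g • b) ≤ Γ.dist a b := by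
  obtain ⟨p, hp⟩ := (hA.med.1 a b).exists_walk_length_eq_dist
  let φ : Γ →g Γ := ⟨fun v => g • v, fun {a b} h => hA.aut g a b h⟩
  have := SimpleGraph.dist_le (p.map φ)
  rw [SimpleGraph.Walk.length_map, hp] at this
  exact this

theorem Act.dist (hA : Act G Γ) (g : G) (a b : V) : Γ.dist (g • a) (g • b) = Γ.dist a b := by
  apply le_antisymm (hA.dist_le g a b)
  have := hA.dist_le g⁻¹ (g • a) (g • b)
  simpa using this

theorem Act.ball (hA : Act G Γ) (m : ℕ) : ∀ v, {w | Γ.dist v w ≤ m}.Finite := by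
  induction m with
  | zero =>
    intro v
    refine (Set.finite_singleton v).subset fun w hw => ?_
    exact ((hA.med.eq_iff v w).1 (Nat.le_zero.1 hw)).symm
  | succ m ih =>
    intro v
    refine ((Set.finite_singleton v).union
      ((hA.fin v).biUnion fun u _ => ih u)).subset fun w hw => ?_
    obtain ⟨p, hp⟩ := (hA.med.1 v w).exists_walk_length_eq_dist
    cases p with
    | nil => exact Or.inl rfl
    | @cons _ u _ h p' =>
      right
      rw [Set.mem_iUnion₂]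
      refine ⟨u, h, ?_⟩
      have h1 := SimpleGraph.dist_le p'
      rw [SimpleGraph.Walk.length_cons] at hp
      simp only [Set.mem_ofPred_eq] at hw ⊢
      omega

theorem Act.ballK (hA : Act G Γ) {K : Set V} (hK : K.Finite) (m : ℕ) :
    {w | ∃ u ∈ K, Γ.dist u w ≤ m}.Finite := by
  refine (hK.biUnion fun u _ => hA.ball m u).subset fun w hw => ?_
  obtain ⟨u, hu, h⟩ := hw
  rw [Set.mem_iUnion₂]
  exact ⟨u, hu, h⟩

theorem CFlat.smul (hA : Act G Γ) {f : (Fin n → ℤ) → V} (hf : CFlat Γ f) (g : G)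
    (b : Fin n → ℤ) : CFlat Γ (fun z => g • f (z + b)) where
  flat z w := by rw [hA.dist, hf.flat, ds_add]
  conv z w v h := by
    have h1 : ∀ u, Γ.dist (g • u) v = Γ.dist u (g⁻¹ • v) := fun u => by
      rw [← hA.dist g⁻¹, inv_smul_smul]
    rw [dcomm v, h1, h1, hA.dist, dcomm (f (w + b))] at h
    obtain ⟨u, hu⟩ := hf.conv _ _ _ h
    refine ⟨u - b, ?_⟩
    simp only [sub_add_cancel]
    rw [hu, smul_inv_smul]

theorem CFlat.memball (hA : Act G Γ) {f : (Fin n → ℤ) → V} (hf : CFlat Γ f) {K : Set V} {g : G}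
    (hg : g • f 0 ∈ K) (z : Fin n → ℤ) :
    g • f z ∈ {w | ∃ u ∈ K, Γ.dist u w ≤ nm z} := by
  refine ⟨_, hg, ?_⟩
  rw [hA.dist, hf.flat, ds_zero]

theorem CFlat.limit {h : (Fin n → ℤ) → V}
    (hh : ∀ R : ℕ, ∃ k : (Fin n → ℤ) → V, CFlat Γ k ∧ ∀ z ∈ Win n R, h z = k z) :
    CFlat Γ h where
  flat z w := by
    obtain ⟨k, hk, hk2⟩ := hh (nm z + nm w)
    rw [hk2 z fun i => (le_nm z i).trans (by omega), hk2 w fun i => (le_nm w i).trans (by omega)]
    exact hk.flat z w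
  conv z w v hv := by
    obtain ⟨k, hk, hk2⟩ := hh (nm z + nm w)
    rw [hk2 z fun i => (le_nm z i).trans (by omega),
      hk2 w fun i => (le_nm w i).trans (by omega)] at hv
    obtain ⟨u, hu, hb⟩ := hk.btw hv
    refine ⟨u, ?_⟩
    rw [hk2 u, hu]
    intro i
    have h1 := hb i
    have h2 := le_nm z i
    have h3 := le_nm w i
    omega

/-- closed families of flats which are invariant under `G` and under translations -/
structure Sys (G : Type*) [Group G] [MulAction G V] (Γ : SimpleGraph V)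
    (L : Set ((Fin n → ℤ) → V)) : Prop where
  flat : ∀ h ∈ L, CFlat Γ h
  mv : ∀ h ∈ L, ∀ (g : G) (b : Fin n → ℤ), (fun z => g • h (z + b)) ∈ L
  clo : ∀ h : (Fin n → ℤ) → V, (∀ R : ℕ, ∃ k ∈ L, ∀ z ∈ Win n R, h z = k z) → h ∈ L

/-- the limit flats of `f` -/
def Orb (G : Type*) [Group G] [MulAction G V] (f : (Fin n → ℤ) → V) : Set ((Fin n → ℤ) → V) :=
  {h | ∀ R : ℕ, ∃ (g : G) (b : Fin n → ℤ), ∀ z ∈ Win n R, h z = g • f (z + b)}

theorem Orb.self (f : (Fin n → ℤ) → V) : f ∈ Orb G f := fun _ => ⟨1, 0, fun z _ => by simp⟩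

theorem win_add {R : ℕ} {z b : Fin n → ℤ} (hz : z ∈ Win n R) : z + b ∈ Win n (R + nm b) := by
  intro k
  have h1 := hz k
  have h2 := le_nm b k
  simp only [Pi.add_apply]
  omega

theorem Orb.sys (hA : Act G Γ) {f : (Fin n → ℤ) → V} (hf : CFlat Γ f) : Sys G Γ (Orb G f) where
  flat := by
    intro h hh
    refine CFlat.limit fun R => ?_
    obtain ⟨g, b, hg⟩ := hh R
    exact ⟨_, hf.smul hA g b, hg⟩
  mv := by
    intro h hh g b R
    obtain ⟨g', b', hg⟩ := hh (R + nm b)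
    refine ⟨g * g', b + b', fun z hz => ?_⟩
    simp only []
    rw [hg _ (win_add hz), mul_smul, add_assoc]
  clo := by
    intro h hh R
    obtain ⟨k, hk, hk2⟩ := hh R
    obtain ⟨g, b, hg⟩ := hk R
    exact ⟨g, b, fun z hz => by rw [hk2 z hz, hg z hz]⟩

theorem Sys.orb {L : Set ((Fin n → ℤ) → V)} (hL : Sys G Γ L) {f : (Fin n → ℤ) → V} (hf : f ∈ L) :
    Orb G f ⊆ L := by
  intro h hh
  apply hL.clo
  intro R
  obtain ⟨g, b, hg⟩ := hh R
  exact ⟨_, hL.mv f hf g b, hg⟩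

/-- compactness -/
theorem Sys.limit (hA : Act G Γ) {L : Set ((Fin n → ℤ) → V)} (hL : Sys G Γ L)
    (h : ℕ → (Fin n → ℤ) → V) (hh : ∀ m, h m ∈ L) :
    ∃ h' ∈ L, ∀ R N : ℕ, ∃ m, N ≤ m ∧ ∃ g : G, ∀ z ∈ Win n R, h' z = g • h m z := by
  obtain ⟨K, hK, hGK⟩ := hA.orb
  choose g hg using fun m => hGK (h m 0)
  obtain ⟨f, hf⟩ := cluster (fun m z => g m • h m z)
    (fun z : Fin n → ℤ => {w | ∃ u ∈ K, Γ.dist u w ≤ nm z})
    (fun z => hA.ballK hK _) (fun m z => (hL.flat _ (hh m)).memball hA (hg m) z)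
  have key : ∀ R N : ℕ, ∃ m, N ≤ m ∧ ∀ z ∈ Win n R, f z = g m • h m z := by
    intro R N
    obtain ⟨m, hm, hm2⟩ := hf _ (win_finite R) N
    exact ⟨m, hm, fun z hz => (hm2 z hz).symm⟩
  refine ⟨f, ?_, ?_⟩
  · apply hL.clo
    intro R
    obtain ⟨m, _, hm⟩ := key R 0
    exact ⟨_, hL.mv _ (hh m) (g m) 0, fun z hz => by simpa using hm z hz⟩
  · intro R N
    obtain ⟨m, hm, hm2⟩ := key R N
    exact ⟨m, hm, g m, hm2⟩

/-- minimal systems -/
structure IsMin (G : Type*) [Group G] [MulAction G V] (Γ : SimpleGraph V)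
    (L : Set ((Fin n → ℤ) → V)) : Prop where
  sys : Sys G Γ L
  ne : L.Nonempty
  min : ∀ h ∈ L, L ⊆ Orb G h

theorem Sys.exists_min (hA : Act G Γ) {L : Set ((Fin n → ℤ) → V)} (hL : Sys G Γ L)
    (hne : L.Nonempty) : ∃ M ⊆ L, IsMin G Γ M := by
  classical
  let _ : TopologicalSpace V := ⊥
  have _ : DiscreteTopology V := ⟨rfl⟩
  obtain ⟨K, hK, hGK⟩ := hA.orb
  have hC : IsCompact (Set.pi Set.univ
      (fun z : Fin n → ℤ => {w | ∃ u ∈ K, Γ.dist u w ≤ nm z})) :=
    isCompact_univ_pi fun z => (hA.ballK hK _).isCompact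
  set C := Set.pi Set.univ
      (fun z : Fin n → ℤ => {w | ∃ u ∈ K, Γ.dist u w ≤ nm z}) with hCdef
  have hmeet : ∀ M : Set ((Fin n → ℤ) → V), Sys G Γ M → M.Nonempty → (M ∩ C).Nonempty := by
    rintro M hM ⟨h, hh⟩
    obtain ⟨g, hg⟩ := hGK (h 0)
    refine ⟨fun z => g • h z, by simpa using hM.mv h hh g 0, ?_⟩
    rw [hCdef, Set.mem_univ_pi]
    exact fun z => (hM.flat h hh).memball hA hg z
  have hclosed : ∀ M : Set ((Fin n → ℤ) → V), Sys G Γ M → IsClosed M := by
    intro M hM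
    rw [← closure_subset_iff_isClosed]
    intro h hh
    apply hM.clo
    intro R
    rw [mem_closure_iff] at hh
    obtain ⟨k, hk1, hk2⟩ := hh (⋂ z ∈ Win n R, {k | k z = h z})
      ((win_finite R).isOpen_biInter fun z _ => by
        have := (isOpen_discrete {h z}).preimage (continuous_apply (A := fun _ : Fin n → ℤ => V) z)
        exact this) (by simp)
    refine ⟨k, hk2, fun z hz => ?_⟩
    rw [Set.mem_iInter₂] at hk1
    exact (hk1 z hz).symm
  obtain ⟨M, hM⟩ := zorn_superset {M : Set ((Fin n → ℤ) → V) | Sys G Γ M ∧ M.Nonempty ∧ M ⊆ L} (by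
    intro c hc hchain
    rcases c.eq_empty_or_nonempty with rfl | hcne
    · exact ⟨L, ⟨hL, hne, subset_rfl⟩, by simp⟩
    · refine ⟨⋂₀ c, ⟨⟨?_, ?_, ?_⟩, ?_, ?_⟩, fun s hs => Set.sInter_subset_of_mem hs⟩
      · intro h hh
        obtain ⟨M, hM⟩ := hcne
        exact (hc hM).1.flat h (hh M hM)
      · intro h hh g b M hM
        exact (hc hM).1.mv h (hh M hM) g b
      · intro h hh M hM
        refine (hc hM).1.clo h fun R => ?_
        obtain ⟨k, hk, hk2⟩ := hh R
        exact ⟨k, hk M hM, hk2⟩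
      · have _ : Nonempty c := hcne.to_subtype
        have := IsCompact.nonempty_iInter_of_directed_nonempty_isCompact_isClosed
          (fun M : c => M.1 ∩ C) (by
            intro M N
            rcases hchain.total M.2 N.2 with h | h
            · exact ⟨M, subset_rfl, Set.inter_subset_inter_left _ h⟩
            · exact ⟨N, Set.inter_subset_inter_left _ h, subset_rfl⟩)
          (fun M => hmeet _ (hc M.2).1 (hc M.2).2.1)
          (fun M => hC.inter_left (hclosed _ (hc M.2).1))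
          (fun M => (hclosed _ (hc M.2).1).inter hC.isClosed)
        obtain ⟨h, hh⟩ := this
        refine ⟨h, fun M hM => ?_⟩
        rw [Set.mem_iInter] at hh
        exact (hh ⟨M, hM⟩).1
      · obtain ⟨M, hM⟩ := hcne
        exact (Set.sInter_subset_of_mem hM).trans (hc hM).2.2)
  refine ⟨M, hM.prop.2.2, hM.prop.1, hM.prop.2.1, fun h hh => ?_⟩
  have h1 := hM.prop.1.orb hh
  exact hM.le_of_le (y := Orb G h) ⟨Orb.sys hA (hM.prop.1.flat h hh), ⟨h, Orb.self h⟩,
    h1.trans hM.prop.2.2⟩ h1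

/-- uniform recurrence in minimal systems -/
theorem IsMin.recur (hA : Act G Γ) {L : Set ((Fin n → ℤ) → V)} (hL : IsMin G Γ L)
    {k : (Fin n → ℤ) → V} (hk : k ∈ L) (R : ℕ) :
    ∃ N : ℕ, ∀ h ∈ L, ∃ b ∈ Win n N, ∃ g : G, ∀ z ∈ Win n R, g • h (z + b) = k z := by
  by_contra hcon
  push Not at hcon
  choose h hhL hb using hcon
  obtain ⟨h', hh', hlim⟩ := hL.sys.limit hA h hhL
  obtain ⟨g', b', hg'⟩ := hL.min h' hh' hk R
  obtain ⟨m, hm, g, hg⟩ := hlim (R + nm b') (nm b')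
  obtain ⟨z, hz, hz3⟩ := hb m b' (fun i => (le_nm b' i).trans hm) (g' * g)
  apply hz3
  rw [hg' z hz, hg _ (win_add hz), mul_smul]

end Pool.Agent.V5helper79.BX
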